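import Mathlib
import Pool.Agent.Hhelper69.PomegaFinMain

/-!
`P(ω)/fin` embeds into the Lipschitz reducibility order on the `D₂(Σ⁰₁)` subsets of the real line
(question Q1).
-/

/-- There is a map `x ↦ A x` from subsets of `ω` to subsets of `ℝ` of the form `open ∩ closed`
such that `x ⊆* y` holds exactly when `A x` is the preimage of `A y` under a Lipschitz function. -/
theorem Pool.Agent.Results.MP_b9d480_lc.LipschitzEmbedding.result :
    ∃ A : Set ℕ → Set ℝ,
      (∀ x : Set ℕ, ∃ U F : Set ℝ, IsOpen U ∧ IsClosed F ∧ A x = U ∩ F) ∧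
      ∀ x y : Set ℕ, (x \ y).Finite ↔
        ∃ f : ℝ → ℝ, (∃ K : NNReal, LipschitzWith K f) ∧ A x = f ⁻¹' A y :=
  ⟨Pool.Agent.Hhelper69.PF.A, Pool.Agent.Hhelper69.PF.A_d2,
    Pool.Agent.Hhelper69.PF.main_lipschitz⟩
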